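import Pool.Agent.Y836.VD.Stm

/-!
# The part of the unit ball near a subspace of codimension `k` (job VD-SLAB)
-/

set_option autoImplicit false
open MeasureTheory Set

namespace Pool.Agent.Y210.VD

open Pool.Agent.Results.MP_ad3614_gt.DifferenceUnbounded Pool.Agent.Y836.VD

noncomputable section

theorem ball_real (n : ℕ) : 1 ≤ n →
    √Real.pi ^ n / Real.Gamma ((n : ℝ) / 2 + 1) ≤ (9 / √(n : ℝ)) ^ n := by
  induction n using Nat.strong_induction_on with
  | _ n ih =>
    intro hn
    have hpi := Real.pi_pos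
    have hpi4 := Real.pi_le_four
    have hpi3 := Real.pi_gt_three
    rcases Nat.lt_or_ge n 3 with h | h
    · have h12 : n = 1 ∨ n = 2 := by omega
      rcases h12 with rfl | rfl
      · have h1 : Real.Gamma ((1 : ℕ) / 2 + 1 : ℝ) = √Real.pi / 2 := by
          push_cast
          rw [Real.Gamma_add_one (by norm_num), Real.Gamma_one_half_eq]
          ring
        rw [h1]
        have h2 : 0 < √Real.pi := Real.sqrt_pos.2 hpi
        rw [pow_one, pow_one, div_div_eq_mul_div, mul_comm, mul_div_assoc, div_self h2.ne']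
        norm_num
      · have h1 : Real.Gamma ((2 : ℕ) / 2 + 1 : ℝ) = 1 := by
          have e : ((2 : ℕ) / 2 + 1 : ℝ) = 2 := by norm_num
          rw [e, Real.Gamma_two]
        rw [h1, div_one, Real.sq_sqrt hpi.le, div_pow, Real.sq_sqrt (by positivity)]
        norm_num
        linarith
    · obtain ⟨k, rfl⟩ : ∃ k, n = k + 2 := ⟨n - 2, by omega⟩
      have hk : 1 ≤ k := by omega
      have hkR : (1 : ℝ) ≤ k := by exact_mod_cast hk
      have h1 := ih k (by omega) hk
      have hG : 0 < Real.Gamma ((k : ℝ) / 2 + 1) := Real.Gamma_pos_of_pos (by positivity)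
      have h2 : Real.Gamma (((k + 2 : ℕ) : ℝ) / 2 + 1) =
          ((k : ℝ) / 2 + 1) * Real.Gamma ((k : ℝ) / 2 + 1) := by
        have e : ((k + 2 : ℕ) : ℝ) / 2 + 1 = ((k : ℝ) / 2 + 1) + 1 := by push_cast; ring
        rw [e, Real.Gamma_add_one (by positivity)]
      have h3 : √Real.pi ^ (k + 2) / Real.Gamma (((k + 2 : ℕ) : ℝ) / 2 + 1) =
          (2 * Real.pi / (k + 2)) * (√Real.pi ^ k / Real.Gamma ((k : ℝ) / 2 + 1)) := by
        rw [h2, pow_add, Real.sq_sqrt hpi.le]
        field_simp
      obtain ⟨a, ha⟩ : ∃ a, a = √(k : ℝ) := ⟨_, rfl⟩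
      obtain ⟨c, hc⟩ : ∃ c, c = √((k + 2 : ℕ) : ℝ) := ⟨_, rfl⟩
      have ha0 : 0 < a := by rw [ha]; exact Real.sqrt_pos.2 (by linarith)
      have hc0 : 0 < c := by rw [hc]; exact Real.sqrt_pos.2 (by positivity)
      have ha2 : a ^ 2 = k := by rw [ha, Real.sq_sqrt (by positivity)]
      have hc2 : c ^ 2 = k + 2 := by rw [hc, Real.sq_sqrt (by positivity)]; push_cast; ring
      rw [h3, ← hc]
      rw [← ha] at h1
      -- `(c / a) ^ k ≤ e`
      have h4 : c / a ≤ 1 + 1 / (k : ℝ) := by
        rw [div_le_iff₀ ha0]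
        apply le_of_sq_le_sq _ (by positivity)
        rw [mul_pow, ha2, hc2]
        have e : (1 + 1 / (k : ℝ)) ^ 2 * k = k + 2 + 1 / k := by field_simp; ring
        rw [e]
        have : 0 < 1 / (k : ℝ) := by positivity
        linarith
      have h5 : (c / a) ^ k ≤ 3 := by
        calc (c / a) ^ k ≤ (1 + 1 / (k : ℝ)) ^ k := pow_le_pow_left₀ (by positivity) h4 k
          _ ≤ (Real.exp (1 / (k : ℝ))) ^ k := by
              apply pow_le_pow_left₀ (by positivity)
              have := Real.add_one_le_exp (1 / (k : ℝ))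
              linarith
          _ = Real.exp 1 := by
              rw [← Real.exp_nat_mul]
              congr 1
              field_simp
          _ ≤ 3 := by
              have := Real.exp_one_lt_d9
              linarith
      have h6 : (9 / a) ^ k = (9 / c) ^ k * (c / a) ^ k := by
        rw [← mul_pow]
        congr 1
        field_simp
      have h7 : (9 / c) ^ (k + 2) = 81 / (k + 2) * (9 / c) ^ k := by
        rw [pow_add, div_pow 9 c 2, hc2]
        ring
      rw [h7]
      have h8 : 0 ≤ (9 / c) ^ k := by positivity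
      calc 2 * Real.pi / (k + 2) * (√Real.pi ^ k / Real.Gamma ((k : ℝ) / 2 + 1))
          ≤ 2 * Real.pi / (k + 2) * ((9 / c) ^ k * 3) := by
            apply mul_le_mul_of_nonneg_left _ (by positivity)
            rw [h6] at h1
            exact h1.trans (mul_le_mul_of_nonneg_left h5 h8)
        _ = (6 * Real.pi) / (k + 2) * (9 / c) ^ k := by ring
        _ ≤ 81 / (k + 2) * (9 / c) ^ k := by
            apply mul_le_mul_of_nonneg_right _ h8
            apply div_le_div_of_nonneg_right _ (by positivity)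
            linarith

theorem ball : S_BALL := by
  intro n hn
  rw [vball, vm]
  exact ENNReal.ofReal_le_ofReal (ball_real n hn)

/-- the closed ball in coordinates -/
def Cc (m : ℕ) (s : ℝ) : Set (Fin m → ℝ) := {z | ∑ i, z i ^ 2 ≤ s ^ 2}

theorem Cc_meas (m : ℕ) (s : ℝ) : MeasurableSet (Cc m s) := by
  have : IsClosed (Cc m s) := isClosed_le (by fun_prop) continuous_const
  exact this.measurableSet

theorem vCc (m : ℕ) {s : ℝ} (hs : 0 ≤ s) :
    volume (Cc m s) = ENNReal.ofReal (s ^ m) * volume (Bc m) := by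
  have h1 := (PiLp.volume_preserving_ofLp (Fin m)).measure_preimage (Cc_meas m s).nullMeasurableSet
  have h2 : (WithLp.ofLp ⁻¹' Cc m s : Set (EuclideanSpace ℝ (Fin m))) = Metric.closedBall 0 s := by
    ext x
    rw [mem_preimage, mem_closedBall_zero_iff, EuclideanSpace.norm_eq, Real.sqrt_le_left hs]
    simp [Cc]
  rw [← h1, h2, Measure.addHaar_closedBall _ _ hs, finrank_euclideanSpace, Fintype.card_fin, vball]

theorem ratio_iter (l k : ℕ) :
    volume (Bc l) ≤ ENNReal.ofReal (√((l + k : ℕ) : ℝ) ^ k) * volume (Bc (l + k)) := by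
  have key : ∀ j : ℕ, j ≤ k →
      volume (Bc l) ≤ ENNReal.ofReal (√((l + k : ℕ) : ℝ) ^ j) * volume (Bc (l + j)) := by
    intro j
    induction j with
    | zero => intro _; simp
    | succ j ih =>
      intro hj
      refine (ih (by omega)).trans ?_
      have h1 := ratio (l + j)
      have h2 : √(((l + j : ℕ) : ℝ) + 1) ≤ √((l + k : ℕ) : ℝ) := by
        apply Real.sqrt_le_sqrt
        exact_mod_cast (by omega : l + j + 1 ≤ l + k)
      calc ENNReal.ofReal (√((l + k : ℕ) : ℝ) ^ j) * volume (Bc (l + j))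
          ≤ ENNReal.ofReal (√((l + k : ℕ) : ℝ) ^ j) *
            (ENNReal.ofReal (√((l + k : ℕ) : ℝ)) * volume (Bc (l + j + 1))) := by
            gcongr
            exact h1.trans (by gcongr)
        _ = _ := by
            rw [← mul_assoc, ← ENNReal.ofReal_mul (by positivity), ← pow_succ, add_assoc]
  exact key k le_rfl

theorem slabk : S_SLABK := by
  intro n k ν s hk hkn hν hs
  obtain ⟨l, rfl⟩ : ∃ l, n = l + k := ⟨n - k, by omega⟩
  -- an orthonormal basis
  obtain ⟨b, hb⟩ : ∃ b : OrthonormalBasis (Fin k ⊕ Fin l) ℝ (EuclideanSpace ℝ (Fin (l + k))),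
      ∀ j, b (Sum.inl j) = ν j := by
    have hv : Orthonormal ℝ ((Set.range (Sum.inl : Fin k → Fin k ⊕ Fin l)).domRestrict
        (Sum.elim ν (fun _ : Fin l => (0 : EuclideanSpace ℝ (Fin (l + k)))))) := by
      have h1 : ∀ i : Set.range (Sum.inl : Fin k → Fin k ⊕ Fin l), ∃ j : Fin k, Sum.inl j = i.1 :=
        fun i => i.2
      choose f hf using h1
      have h2 : (Set.range (Sum.inl : Fin k → Fin k ⊕ Fin l)).domRestrict
          (Sum.elim ν (fun _ : Fin l => (0 : EuclideanSpace ℝ (Fin (l + k))))) = ν ∘ f := by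
        funext i
        show Sum.elim ν (fun _ : Fin l => (0 : EuclideanSpace ℝ (Fin (l + k)))) i.1 = ν (f i)
        rw [← hf i]
        rfl
      rw [h2]
      apply hν.comp f
      intro i i' h
      apply Subtype.ext
      rw [← hf i, ← hf i', h]
    obtain ⟨b, hb⟩ := hv.exists_orthonormalBasis_extension_of_card_eq (by
      rw [finrank_euclideanSpace, Fintype.card_fin, Fintype.card_sum, Fintype.card_fin,
        Fintype.card_fin, add_comm])
    exact ⟨b, fun j => hb _ ⟨j, rfl⟩⟩
  obtain ⟨A, hA⟩ : ∃ A : Set (Fin k ⊕ Fin l → ℝ),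
      A = (MeasurableEquiv.sumPiEquivProdPi (fun _ : Fin k ⊕ Fin l => ℝ)) ⁻¹' (Cc k s ×ˢ Bc l) :=
    ⟨_, rfl⟩
  have hAm : MeasurableSet A := by
    rw [hA]
    exact (MeasurableEquiv.measurable _) ((Cc_meas k s).prod (Bc_meas l))
  have hsub : {x : EuclideanSpace ℝ (Fin (l + k)) | ‖x‖ < 1 ∧ ∑ j, (inner ℝ x (ν j)) ^ 2 ≤ s ^ 2} ⊆
      b.repr ⁻¹' (WithLp.ofLp ⁻¹' A) := by
    rintro x ⟨hx1, hx2⟩
    rw [mem_preimage, mem_preimage, hA, mem_preimage, mem_prod]
    constructor
    · show ∑ i : Fin k, (b.repr x (Sum.inl i)) ^ 2 ≤ s ^ 2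
      refine le_trans (le_of_eq ?_) hx2
      apply Finset.sum_congr rfl
      intro i _
      rw [b.repr_apply_apply, hb, real_inner_comm]
    · show ∑ i : Fin l, (b.repr x (Sum.inr i)) ^ 2 < 1
      have h1 : ‖b.repr x‖ < 1 := by rw [b.repr.norm_map]; exact hx1
      rw [EuclideanSpace.norm_eq, Real.sqrt_lt' one_pos, Fintype.sum_sum_type] at h1
      simp only [Real.norm_eq_abs, sq_abs, one_pow] at h1
      have h2 : 0 ≤ ∑ i : Fin k, (b.repr x (Sum.inl i)) ^ 2 :=
        Finset.sum_nonneg fun _ _ => sq_nonneg _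
      linarith
  have hv1 : volume (b.repr ⁻¹' (WithLp.ofLp ⁻¹' A)) = volume A := by
    have g1 := (PiLp.volume_preserving_ofLp (Fin k ⊕ Fin l))
    rw [b.repr.measurePreserving.measure_preimage (g1.measurable hAm).nullMeasurableSet,
      g1.measure_preimage hAm.nullMeasurableSet]
  have hv2 : volume A = volume (Cc k s) * volume (Bc l) := by
    rw [hA, (volume_measurePreserving_sumPiEquivProdPi (fun _ : Fin k ⊕ Fin l => ℝ)).measure_preimage
      ((Cc_meas k s).prod (Bc_meas l)).nullMeasurableSet, Measure.volume_eq_prod,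
      Measure.prod_prod]
  have hkR : (0 : ℝ) < k := by exact_mod_cast hk
  calc volume {x : EuclideanSpace ℝ (Fin (l + k)) | ‖x‖ < 1 ∧ ∑ j, (inner ℝ x (ν j)) ^ 2 ≤ s ^ 2}
      ≤ volume A := (measure_mono hsub).trans_eq hv1
    _ = ENNReal.ofReal (s ^ k) * volume (Bc k) * volume (Bc l) := by rw [hv2, vCc k hs]
    _ ≤ ENNReal.ofReal (s ^ k) * ENNReal.ofReal ((9 / √(k : ℝ)) ^ k) *
        (ENNReal.ofReal (√((l + k : ℕ) : ℝ) ^ k) * volume (Bc (l + k))) := by
        gcongr
        · rw [← vball]; exact ball k hk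
        · exact ratio_iter l k
    _ = ENNReal.ofReal ((9 * s * √(((l + k : ℕ) : ℝ) / k)) ^ k) *
        volume (Metric.ball (0 : EuclideanSpace ℝ (Fin (l + k))) 1) := by
        rw [vball, ← mul_assoc, ← ENNReal.ofReal_mul (by positivity),
          ← ENNReal.ofReal_mul (by positivity), ← mul_pow, ← mul_pow,
          Real.sqrt_div (by positivity)]
        congr 3
        ring

end

end Pool.Agent.Y210.VD
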